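import Pool.Agent.Work.MP_46fa68_23.Nival

/-!
# Lists of cells for the numbers `1 / m` (helper80)

The checker of the uniform range takes a cell `X : NI` (end points in units of `1 / S`) and proves a statement
`P m` for every `m` with `1 / m ∈ X`.  Here: point cells `rat 1 m` for `a ≤ m < b`, cells `cell k i` of constant
width `1 / k`, chains of cells with arbitrary end points, and the combination of separate checker results.
-/

set_option autoImplicit false

namespace Pool.NV.Cells

open Pool.NV

/-- the point cell of `1 / m` -/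
theorem mem_pt {m : ℕ} (hm : 0 < m) : Mem (1 / (m : ℝ)) (rat 1 m) := by
  have h := mem_rat (p := 1) hm
  rwa [Nat.cast_one] at h

/-! ### constant width -/

/-- every `m` with `k ≤ n * m` has `1 / m` in one of the cells `cell k i`, `i < n` -/
theorem exists_cell_inv {k n m : ℕ} (hk : 0 < k) (hn : 0 < n) (hm : 0 < m) (h : k ≤ n * m) :
    ∃ i, i < n ∧ Mem (1 / (m : ℝ)) (cell k i) := by
  have hk' : (0 : ℝ) < k := by exact_mod_cast hk
  have hm' : (0 : ℝ) < m := by exact_mod_cast hm
  have h1 : 1 / (m : ℝ) ≤ n / k := by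
    rw [div_le_div_iff₀ hm' hk', one_mul]
    exact_mod_cast h
  obtain ⟨i, hi, -, -, h4⟩ := exists_cell hk hn (by positivity) h1
  exact ⟨i, hi, h4⟩

/-! ### chains -/

/-- consecutive pairs of a list of end points -/
def pairs : List ℕ → List NI
  | [] => []
  | [_] => []
  | a :: b :: l => ⟨a, b⟩ :: pairs (b :: l)

theorem exists_pair {x : ℝ} : ∀ (l : List ℕ) (a b : ℕ), ((a : ℕ) : ℝ) ≤ x * (S : ℕ) →
    x * (S : ℕ) ≤ (((a :: b :: l).getLast (by simp) : ℕ) : ℝ) → ∃ X ∈ pairs (a :: b :: l), Mem x X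
  | [], a, b, h1, h2 => ⟨⟨a, b⟩, by simp [pairs], h1, by simpa using h2⟩
  | c :: l, a, b, h1, h2 => by
      rcases le_total (x * (S : ℕ)) ((b : ℕ) : ℝ) with h | h
      · exact ⟨⟨a, b⟩, by simp [pairs], h1, h⟩
      · obtain ⟨X, hX, hx⟩ := exists_pair l b c h (by
          rw [List.getLast_cons (by simp)] at h2
          exact h2)
        exact ⟨X, by rw [pairs]; exact List.mem_cons_of_mem _ hX, hx⟩

/-- every `m` with `S ≤ e * m`, `e` = last end point of a chain that starts with `0`, has `1 / m` in one of the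
cells of the chain -/
theorem exists_pair_inv {b e m : ℕ} {l : List ℕ} (hm : 0 < m) (he : (0 :: b :: l).getLast (by simp) = e)
    (h : S ≤ e * m) : ∃ X ∈ pairs (0 :: b :: l), Mem (1 / (m : ℝ)) X := by
  have hm' : (0 : ℝ) < m := by exact_mod_cast hm
  refine exists_pair l 0 b (by rw [Nat.cast_zero]; positivity) ?_
  rw [he, one_div, inv_mul_le_iff₀ hm', mul_comm]
  exact_mod_cast h

/-! ### combination -/

/-- results of two consecutive ranges -/
theorem glue {Q : ℕ → Prop} {a b c : ℕ} (h1 : ∀ i, a ≤ i → i < b → Q i) (h2 : ∀ i, b ≤ i → i < c → Q i) :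
    ∀ i, a ≤ i → i < c → Q i := fun i ha hc => by
  rcases lt_or_ge i b with h | h
  · exact h1 i ha h
  · exact h2 i h hc

/-- one index -/
theorem single {Q : ℕ → Prop} {a : ℕ} (h : Q a) : ∀ i, a ≤ i → i < a + 1 → Q i := fun i ha hc => by
  have : i = a := by omega
  rwa [this]

/-- a block checked by `List.all` -/
theorem block {f : ℕ → Bool} {s l : ℕ} (h : (List.range' s l).all f = true) :
    ∀ i, s ≤ i → i < s + l → f i = true := fun i h1 h2 => by
  rw [List.all_eq_true] at h
  exact h i (List.mem_range'_1.2 ⟨h1, h2⟩)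

/-- a list of blocks (start, length) that follow each other from `a` to `c` -/
theorem blocks {Q : ℕ → Prop} {a : ℕ} : ∀ (L : List ℕ), (∀ n < L.length, ∀ i,
    a + (L.take n).sum ≤ i → i < a + (L.take (n + 1)).sum → Q i) → ∀ i, a ≤ i → i < a + L.sum → Q i := by
  intro L
  induction L generalizing a with
  | nil =>
      intro _ i h1 h2
      rw [List.sum_nil] at h2
      omega
  | cons x L ih =>
      intro H
      refine glue (b := a + x) (fun i h1 h2 => H 0 (by simp) i (by simpa using h1) (by simpa using h2)) ?_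
      rw [List.sum_cons, ← add_assoc]
      refine ih fun n hn i h1 h2 => H (n + 1) (by simpa using hn) i ?_ ?_
      · rw [List.take_succ_cons, List.sum_cons]
        omega
      · rw [List.take_succ_cons, List.sum_cons]
        omega

/-! ### the main combinations -/

/-- **Point cells for `a ≤ m < b`, constant width `1 / k` below.** -/
theorem all_of_cells {P : ℕ → Prop} {chk : NI → Bool} {a b k n : ℕ} (ha : 0 < a) (hk : 0 < k) (hn : 0 < n)
    (hb : k ≤ n * b) (hs : ∀ X, chk X = true → ∀ m : ℕ, a ≤ m → Mem (1 / (m : ℝ)) X → P m)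
    (hpt : ∀ m, a ≤ m → m < b → chk (rat 1 m) = true) (hcl : ∀ i, 0 ≤ i → i < n → chk (cell k i) = true) :
    ∀ m, a ≤ m → P m := fun m hm => by
  have h0 : 0 < m := lt_of_lt_of_le ha hm
  rcases lt_or_ge m b with h | h
  · exact hs _ (hpt m hm h) m hm (mem_pt h0)
  · obtain ⟨i, hi, hx⟩ := exists_cell_inv hk hn h0 (hb.trans (Nat.mul_le_mul_left n h))
    exact hs _ (hcl i (Nat.zero_le i) hi) m hm hx

/-- **Point cells for `a ≤ m < b`, a chain of cells below.** -/
theorem all_of_chain {P : ℕ → Prop} {chk : NI → Bool} {a b c e : ℕ} {l : List ℕ} (ha : 0 < a)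
    (he : (0 :: c :: l).getLast (by simp) = e) (hb : S ≤ e * b)
    (hs : ∀ X, chk X = true → ∀ m : ℕ, a ≤ m → Mem (1 / (m : ℝ)) X → P m)
    (hpt : ∀ m, a ≤ m → m < b → chk (rat 1 m) = true) (hcl : ∀ X ∈ pairs (0 :: c :: l), chk X = true) :
    ∀ m, a ≤ m → P m := fun m hm => by
  have h0 : 0 < m := lt_of_lt_of_le ha hm
  rcases lt_or_ge m b with h | h
  · exact hs _ (hpt m hm h) m hm (mem_pt h0)
  · obtain ⟨X, hX, hx⟩ := exists_pair_inv h0 he (hb.trans (Nat.mul_le_mul_left e h))
    exact hs _ (hcl X hX) m hm hx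

/-- several checkers (each range of cells may use its own coefficients): a statement proved on each of finitely
many sets of `m` that cover everything from `a` on -/
theorem all_of_cover {P : ℕ → Prop} {a : ℕ} {ι : Type*} (C : ι → ℕ → Prop) (hC : ∀ m, a ≤ m → ∃ i, C i m)
    (h : ∀ i m, a ≤ m → C i m → P m) : ∀ m, a ≤ m → P m := fun m hm => by
  obtain ⟨i, hi⟩ := hC m hm
  exact h i m hm hi

end Pool.NV.Cells
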