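import Pool.Agent.Work.MP_46fa68_23.Mo9

/-!
# The ray `[0, 1 / μ]` (helper80)
-/

set_option autoImplicit false

namespace Pool.NW

open Pool.NV

/-- the ray `[0, 1/μ]` -/
def ray (μ : ℕ) : NI := ⟨0, S / μ + 1⟩

theorem mem_ray {μ m : ℕ} (hμ : 0 < μ) (hm : μ ≤ m) : Mem (1 / (m : ℝ)) (ray μ) := by
  have h1 : (0 : ℝ) < μ := by exact_mod_cast hμ
  have h2 : (μ : ℝ) ≤ m := by exact_mod_cast hm
  have hr := (mem_rat (p := 1) hμ).2
  have h4 : 1 / (m : ℝ) ≤ 1 / μ := one_div_le_one_div_of_le h1 h2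
  refine ⟨?_, ?_⟩
  · have : (0 : ℝ) ≤ 1 / (m : ℝ) * (S : ℕ) := by positivity
    simpa [ray] using this
  · refine (mul_le_mul_of_nonneg_right h4 (Nat.cast_nonneg S)).trans ?_
    rw [Nat.cast_one] at hr
    refine hr.trans (le_of_eq ?_)
    unfold rat ray
    simp

/-- the budgets on the ray -/
theorem bud_ray {D : Dat} {F : FD} {sel : N3 → ℕ} {μ nC : ℕ} (hok : okBud D F sel μ nC (ray μ) = true)
    {den m t : ℕ} (hden : 0 < den) (hμ : 0 < μ) (hm : μ ≤ m) (ht : (t : ℤ) + F.u = m) :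
    Bud D F sel m t den := by
  have hX := mem_ray hμ hm
  obtain ⟨d, rfl⟩ := Nat.exists_eq_add_of_le hm
  exact bud_of hok hden ht hX

end Pool.NW
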