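import Pool.Agent.Work.MP_46fa68_80.DatU
import Pool.Agent.Work.MP_46fa68_80.Ray

/-!
# MP_46fa68_co, uniform range `m ≥ 27`: kernel checks of the budgets (helper80)
-/

set_option autoImplicit false

namespace Pool.NW.UT

open Pool.NV Pool.NW

set_option maxRecDepth 100000 in
theorem b26a : okBud D26 D26.a N3.a 26 15 (ray 26) = true := by decide +kernel

set_option maxRecDepth 100000 in
theorem b26k : okBud D26 D26.k N3.k 26 15 (ray 26) = true := by decide +kernel

set_option maxRecDepth 100000 in
theorem b26b : okBud D26 D26.b N3.b 26 15 (ray 26) = true := by decide +kernel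

set_option maxRecDepth 100000 in
theorem b27a : okBud D27 D27.a N3.a 27 16 (ray 27) = true := by decide +kernel

set_option maxRecDepth 100000 in
theorem b27k : okBud D27 D27.k N3.k 27 16 (ray 27) = true := by decide +kernel

set_option maxRecDepth 100000 in
theorem b27b : okBud D27 D27.b N3.b 27 16 (ray 27) = true := by decide +kernel

set_option maxRecDepth 100000 in
theorem b28a : okBud D28 D28.a N3.a 28 16 (ray 28) = true := by decide +kernel

set_option maxRecDepth 100000 in
theorem b28k : okBud D28 D28.k N3.k 28 16 (ray 28) = true := by decide +kernel

set_option maxRecDepth 100000 in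
theorem b28b : okBud D28 D28.b N3.b 28 16 (ray 28) = true := by decide +kernel

set_option maxRecDepth 100000 in
theorem b30a : okBud D30 D30.a N3.a 30 18 (ray 30) = true := by decide +kernel

set_option maxRecDepth 100000 in
theorem b30k : okBud D30 D30.k N3.k 30 18 (ray 30) = true := by decide +kernel

set_option maxRecDepth 100000 in
theorem b30b : okBud D30 D30.b N3.b 30 18 (ray 30) = true := by decide +kernel

set_option maxRecDepth 100000 in
theorem b35a : okBud D35 D35.a N3.a 35 21 (ray 35) = true := by decide +kernel

set_option maxRecDepth 100000 in
theorem b35k : okBud D35 D35.k N3.k 35 21 (ray 35) = true := by decide +kernel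

set_option maxRecDepth 100000 in
theorem b35b : okBud D35 D35.b N3.b 35 21 (ray 35) = true := by decide +kernel

end Pool.NW.UT
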