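import Pool.Agent.Work.MP_46fa68_80.DatU

/-!
# MP_46fa68_co, uniform range `m ≥ 27`: kernel checks, part 2 (helper80)
-/

set_option autoImplicit false

namespace Pool.NW.UT

open Pool.NV Pool.NW

set_option maxRecDepth 100000 in
theorem p34 : chk D30 (rat 1 34) = true := by decide +kernel

set_option maxRecDepth 100000 in
theorem p35 : chk D35 (rat 1 35) = true := by decide +kernel

set_option maxRecDepth 100000 in
theorem p36 : chk D35 (rat 1 36) = true := by decide +kernel

set_option maxRecDepth 100000 in
theorem p37 : chk D35 (rat 1 37) = true := by decide +kernel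

set_option maxRecDepth 100000 in
theorem c0 : chk D35 ⟨0, 2062714555⟩ = true := by decide +kernel

set_option maxRecDepth 100000 in
theorem c1 : chk D35 ⟨2062714555, 4116150591⟩ = true := by decide +kernel

set_option maxRecDepth 100000 in
theorem c2 : chk D35 ⟨4116150591, 6158091341⟩ = true := by decide +kernel

set_option maxRecDepth 100000 in
theorem c3 : chk D35 ⟨6158091341, 8182168187⟩ = true := by decide +kernel

end Pool.NW.UT
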