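import Pool.Agent.Work.MP_46fa68_80.DatU

/-!
# MP_46fa68_co, uniform range `m ≥ 27`: kernel checks, part 3 (helper80)
-/

set_option autoImplicit false

namespace Pool.NW.UT

open Pool.NV Pool.NW

set_option maxRecDepth 100000 in
theorem c4 : chk D35 ⟨8182168187, 10183432245⟩ = true := by decide +kernel

set_option maxRecDepth 100000 in
theorem c5 : chk D35 ⟨10183432245, 12032904423⟩ = true := by decide +kernel

set_option maxRecDepth 100000 in
theorem c6 : chk D35 ⟨12032904423, 13749474401⟩ = true := by decide +kernel

set_option maxRecDepth 100000 in
theorem c7 : chk D35 ⟨13749474401, 15351021811⟩ = true := by decide +kernel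

set_option maxRecDepth 100000 in
theorem c8 : chk D35 ⟨15351021811, 16849981675⟩ = true := by decide +kernel

set_option maxRecDepth 100000 in
theorem c9 : chk D35 ⟨16849981675, 18257287123⟩ = true := by decide +kernel

set_option maxRecDepth 100000 in
theorem c10 : chk D35 ⟨18257287123, 19584120560⟩ = true := by decide +kernel

set_option maxRecDepth 100000 in
theorem c11 : chk D35 ⟨19584120560, 20864777818⟩ = true := by decide +kernel

end Pool.NW.UT
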