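import Pool.Agent.Work.MP_46fa68_80.DatU

/-!
# MP_46fa68_co, uniform range `m ≥ 27`: kernel checks, part 4 (helper80)
-/

set_option autoImplicit false

namespace Pool.NW.UT

open Pool.NV Pool.NW

set_option maxRecDepth 100000 in
theorem c12 : chk D35 ⟨20864777818, 22048838597⟩ = true := by decide +kernel

set_option maxRecDepth 100000 in
theorem c13 : chk D35 ⟨22048838597, 23173476908⟩ = true := by decide +kernel

set_option maxRecDepth 100000 in
theorem c14 : chk D35 ⟨23173476908, 24242419804⟩ = true := by decide +kernel

set_option maxRecDepth 100000 in
theorem c15 : chk D35 ⟨24242419804, 25260797239⟩ = true := by decide +kernel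

set_option maxRecDepth 100000 in
theorem c16 : chk D35 ⟨25260797239, 26155907551⟩ = true := by decide +kernel

set_option maxRecDepth 100000 in
theorem c17 : chk D35 ⟨26155907551, 27136154121⟩ = true := by decide +kernel

set_option maxRecDepth 100000 in
theorem c18 : chk D35 ⟨27136154121, 28027871413⟩ = true := by decide +kernel

set_option maxRecDepth 100000 in
theorem c19 : chk D35 ⟨28027871413, 28934516521⟩ = true := by decide +kernel

end Pool.NW.UT
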