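import Pool.Agent.Work.MP_46fa68_80.U1
import Pool.Agent.Work.MP_46fa68_80.U2
import Pool.Agent.Work.MP_46fa68_80.U3
import Pool.Agent.Work.MP_46fa68_80.U4
import Pool.Agent.Work.MP_46fa68_80.BckU
import Pool.Agent.Work.MP_46fa68_80.Cells
import Pool.Agent.Work.MP_46fa68_27.LargeU

/-!
# MP_46fa68_co, uniform range: `|d| ≤ c` off the rare pairs for all `t ≥ 26` (helper80)
-/

set_option autoImplicit false

open Finset

namespace Pool.NW.UT

open Pool.NV Pool.NW Pool.OB Pool.JM Pool.EGL

/-- the shape of the data of a run for `|d| ≤ c` -/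
structure CD (D : Dat) : Prop where
  ha : D.a = ⟨cfC, 1, [122]⟩
  hk : D.k = ⟨cfC, 1, [122]⟩
  hb : D.b = ⟨cfD, 0, []⟩
  hR : ∀ p ∈ D.R, ((p.1 : ℤ) - D.o, (p.2 : ℤ) - D.o) ∈ J26

theorem memR_mem : ∀ {l : List (ℕ × ℕ)} {i j : ℕ}, memR l i j = true → (i, j) ∈ l
  | [], i, j, h => by simp [memR] at h
  | p :: l, i, j, h => by
      rw [memR, Bool.or_eq_true, Bool.and_eq_true, Nat.beq_eq, Nat.beq_eq] at h
      rcases h with ⟨h1, h2⟩ | h
      · rw [← h1, ← h2]
        exact List.mem_cons_self
      · exact List.mem_cons_of_mem _ (memR_mem h)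

/-- **one run** -/
theorem main_of {D : Dat} {X : NI} {μ nC : ℕ} (hD : CD D) (hc : chk D X = true)
    (ba : okBud D D.a N3.a μ nC (ray μ) = true) (bk : okBud D D.k N3.k μ nC (ray μ) = true)
    (bb : okBud D D.b N3.b μ nC (ray μ) = true) (hμ : 17 ≤ μ) {m : ℕ} (hm : μ ≤ m)
    (hx : Mem (1 / (m : ℝ)) X) : MainU m := by
  intro k L b s B hT hN hJ
  have hua : D.a.u = 1 := by rw [hD.ha]
  have huk : D.k.u = 1 := by rw [hD.hk]
  have hub : D.b.u = 0 := by rw [hD.hb]
  have Ha : Bud D D.a N3.a m (m - 1) 100 := bud_ray ba (by norm_num) (by omega) hm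
    (by rw [hua]; omega)
  have Hk : Bud D D.k N3.k m (m - 1) 100 := bud_ray bk (by norm_num) (by omega) hm
    (by rw [huk]; omega)
  have Hb : Bud D D.b N3.b m m 100 := bud_ray bb (by norm_num) (by omega) hm
    (by rw [hub]; omega)
  have h := chk_sound hc (by omega : 0 < m) (by norm_num : 0 < 100) hx Ha Hk Hb hT hN
    (fun i1 i2 h1 h2 => by
      by_contra hne
      rw [Bool.not_eq_false] at hne
      refine hJ ?_
      have h3 := hD.hR _ (memR_mem hne)
      have e1 : (i1 : ℤ) - D.o = (m : ℤ) - L := by omega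
      have e2 : (i2 : ℤ) - D.o = (m : ℤ) + 1 - b := by omega
      rw [e1, e2] at h3
      exact h3)
  obtain ⟨h1, -, h3⟩ := h
  have e1 : fD D.a m (m - 1) 100 (k + 2) B =
      100 * (61 / 50 + HI (k + 2) m (m - 1) 4 (vC cfC m 100) (tauC cfC m 100) B) := by
    rw [hD.ha]
    unfold fD
    simp only [pev, cfC, List.length_cons, List.length_nil]
    push_cast
    ring
  have e2 : fD D.k m (m - 1) 100 (k + 2) B =
      100 * (61 / 50 + HI (k + 2) m (m - 1) 4 (vC cfC m 100) (tauC cfC m 100) B) := by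
    rw [hD.hk]
    unfold fD
    simp only [pev, cfC, List.length_cons, List.length_nil]
    push_cast
    ring
  have e3 : fD D.b m m 100 (k + 2) B =
      100 * HI (k + 2) m m 3 (vC cfD m 100) (tauC cfD m 100) B := by
    rw [hD.hb]
    unfold fD
    simp only [pev, cfD, List.length_cons, List.length_nil]
    push_cast
    ring
  rw [e1] at h1
  rw [e1, e2, e3] at h3
  set c := 61 / 50 + HI (k + 2) m (m - 1) 4 (vC cfC m 100) (tauC cfC m 100) B
  set d := HI (k + 2) m m 3 (vC cfD m 100) (tauC cfD m 100) B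
  have hc0 : 0 ≤ c := by linarith
  exact abs_le_of_sq_le_sq (by nlinarith) hc0

theorem cd26 : CD D26 := ⟨rfl, rfl, rfl, by decide⟩

theorem cd27 : CD D27 := ⟨rfl, rfl, rfl, by decide⟩

theorem cd28 : CD D28 := ⟨rfl, rfl, rfl, by decide⟩

theorem cd30 : CD D30 := ⟨rfl, rfl, rfl, by decide⟩

theorem cd35 : CD D35 := ⟨rfl, rfl, rfl, by decide⟩

/-- the cells of the chain -/
theorem chainU : ∀ X ∈ Cells.pairs endsU, chk D35 X = true := by
  intro X hX
  simp only [endsU, Cells.pairs, List.mem_cons, List.not_mem_nil, or_false] at hX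
  rcases hX with rfl | rfl | rfl | rfl | rfl | rfl | rfl | rfl | rfl | rfl | rfl | rfl | rfl | rfl | rfl | rfl | rfl | rfl | rfl | rfl
  · exact c0
  · exact c1
  · exact c2
  · exact c3
  · exact c4
  · exact c5
  · exact c6
  · exact c7
  · exact c8
  · exact c9
  · exact c10
  · exact c11
  · exact c12
  · exact c13
  · exact c14
  · exact c15
  · exact c16
  · exact c17
  · exact c18
  · exact c19

theorem ptc {m : ℕ} (hm : 0 < m) : Mem (1 / (m : ℝ)) (rat 1 m) := Cells.mem_pt hm

/-- **MAIN: all `t ≥ 26`** -/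
theorem main_u : ∀ t, 26 ≤ t → MainU t := by
  intro t ht
  rcases Nat.lt_or_ge t 38 with h | h
  · interval_cases t
    · exact main_of cd26 p26 b26a b26k b26b (by norm_num) (by norm_num) (ptc (by norm_num))
    · exact main_of cd27 p27 b27a b27k b27b (by norm_num) (by norm_num) (ptc (by norm_num))
    · exact main_of cd28 p28 b28a b28k b28b (by norm_num) (by norm_num) (ptc (by norm_num))
    · exact main_of cd28 p29 b28a b28k b28b (by norm_num) (by norm_num) (ptc (by norm_num))
    · exact main_of cd30 p30 b30a b30k b30b (by norm_num) (by norm_num) (ptc (by norm_num))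
    · exact main_of cd30 p31 b30a b30k b30b (by norm_num) (by norm_num) (ptc (by norm_num))
    · exact main_of cd30 p32 b30a b30k b30b (by norm_num) (by norm_num) (ptc (by norm_num))
    · exact main_of cd30 p33 b30a b30k b30b (by norm_num) (by norm_num) (ptc (by norm_num))
    · exact main_of cd30 p34 b30a b30k b30b (by norm_num) (by norm_num) (ptc (by norm_num))
    · exact main_of cd35 p35 b35a b35k b35b (by norm_num) (by norm_num) (ptc (by norm_num))
    · exact main_of cd35 p36 b35a b35k b35b (by norm_num) (by norm_num) (ptc (by norm_num))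
    · exact main_of cd35 p37 b35a b35k b35b (by norm_num) (by norm_num) (ptc (by norm_num))
  · obtain ⟨X, hX, hx⟩ := Cells.exists_pair_inv (m := t) (l := endsU.tail.tail) (b := 2062714555) (e := 28934516521) (by omega) rfl
      (le_trans (by decide : S ≤ 28934516521 * 38) (Nat.mul_le_mul_left _ h))
    exact main_of cd35 (chainU X hX) b35a b35k b35b (by norm_num) (by omega) hx

end Pool.NW.UT
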