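import Pool.Agent.Work.MP_46fa68_80.DatU

/-!
# MP_46fa68_co, uniform range `m ≥ 27`: kernel checks, part 1 (helper80)
-/

set_option autoImplicit false

namespace Pool.NW.UT

open Pool.NV Pool.NW

set_option maxRecDepth 100000 in
theorem p26 : chk D26 (rat 1 26) = true := by decide +kernel

set_option maxRecDepth 100000 in
theorem p27 : chk D27 (rat 1 27) = true := by decide +kernel

set_option maxRecDepth 100000 in
theorem p28 : chk D28 (rat 1 28) = true := by decide +kernel

set_option maxRecDepth 100000 in
theorem p29 : chk D28 (rat 1 29) = true := by decide +kernel

set_option maxRecDepth 100000 in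
theorem p30 : chk D30 (rat 1 30) = true := by decide +kernel

set_option maxRecDepth 100000 in
theorem p31 : chk D30 (rat 1 31) = true := by decide +kernel

set_option maxRecDepth 100000 in
theorem p32 : chk D30 (rat 1 32) = true := by decide +kernel

set_option maxRecDepth 100000 in
theorem p33 : chk D30 (rat 1 33) = true := by decide +kernel

end Pool.NW.UT
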